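import Pool.Agent.H33.LocGen

set_option autoImplicit false

namespace Pool.Agent.Results.MP_7bc96b_al.Pos

open Finset Pool.Agent.H33.LocGen

variable {X : Type*} [AddCommGroup X] {n : ℕ}

/-- Exponent vectors in `ℕ ^ n` (viewed in `ℤ ^ n`) of invariant monomials supported in `I`. -/
def B (χ : Fin n → X) (I : Finset (Fin n)) : Set (Fin n → ℤ) :=
  {m | (∀ i, 0 ≤ m i) ∧ (∀ i ∉ I, m i = 0) ∧ ∑ i, m i • χ i = 0}

lemma car [Module.Finite ℤ X] (χ : Fin n → X) {I S : Finset (Fin n)} (hS : S ⊆ I) {m : Fin n → ℤ}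
    (hm : m ∈ B χ I) (h : ∀ i ∈ S, 0 < m i) :
    ∃ J ⊆ I, S ⊆ J ∧ #J ≤ #S + Module.finrank ℤ X ∧ ∃ m ∈ B χ J, ∀ i ∈ S, 0 < m i := by
  obtain ⟨J, ⟨j1, j2, m, ⟨m1, m2, m3⟩, m4⟩, j3⟩ := exists_minimal_of_wellFoundedLT
    (fun J => J ⊆ I ∧ S ⊆ J ∧ ∃ m ∈ B χ J, ∀ i ∈ S, 0 < m i) ⟨I, le_rfl, hS, m, hm, h⟩
  refine ⟨J, j1, j2, by_contra fun hc => ?_, m, ⟨m1, m2, m3⟩, m4⟩
  have k : ∀ t ∈ J \ S, ∀ m' : Fin n → ℤ, (∀ i, 0 ≤ m' i) → (∀ i ∉ J, m' i = 0) → m' t = 0 →
      ∑ i, m' i • χ i = 0 → ¬ ∀ i ∈ S, 0 < m' i := fun t ht m' h1 h2 h3 h4 h5 => by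
    obtain ⟨h6, h7⟩ := mem_sdiff.1 ht
    simpa using j3 (y := J.erase t) ⟨(erase_subset ..).trans j1, subset_erase.2 ⟨j2, h7⟩, m',
      ⟨h1, fun i hi => by by_cases e : i = t <;> simp_all, h4⟩, h5⟩ (erase_subset ..) h6
  have hp : ∀ t ∈ J \ S, 0 < m t := fun t ht => (m1 t).lt_of_ne fun e => k t ht m m1 m2 e.symm m3 m4
  obtain ⟨c, c1, c2, t, ct⟩ : ∃ c : Fin n → ℤ, ∑ i, c i • χ i = 0 ∧ (∀ i ∉ J \ S, c i = 0) ∧
      ∃ t, 0 < c t := by
    have : ¬ LinearIndepOn ℤ χ ↑(J \ S) := fun h => by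
      have := h.linearIndependent.fintype_card_le_finrank
      simp only [coe_sort_coe, Fintype.card_coe, card_sdiff_of_subset j2] at this
      omega
    obtain ⟨c, c1, t, t1, t2⟩ := (not_linearIndepOn_finset_iff ..).1 this
    have c2 : ∑ i, (if i ∈ J \ S then c i else 0) • χ i = 0 := by
      simpa only [ite_smul, zero_smul, sum_ite_mem, univ_inter] using c1
    rcases t2.lt_or_gt with h | h
    · exact ⟨fun i => -(if i ∈ J \ S then c i else 0), by simp only [neg_smul, sum_neg_distrib, c2,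
        neg_zero], fun i hi => by simp only [if_neg hi, neg_zero], t, by simp only [if_pos t1]; omega⟩
    · exact ⟨_, c2, fun i hi => if_neg hi, t, by rwa [if_pos t1]⟩
  have ht : t ∈ J \ S := by_contra fun h => ct.ne' (c2 t h)
  obtain ⟨u, u1, u2⟩ := exists_max_image (J \ S) (fun i => (c i : ℚ) / m i) ⟨t, ht⟩
  have u3 : ∀ i ∈ J \ S, c i * m u ≤ c u * m i := fun i hi => by
    have := u2 i hi
    rw [div_le_div_iff₀ (by exact_mod_cast hp i hi) (by exact_mod_cast hp u u1)] at this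
    exact_mod_cast this
  have u4 : 0 < c u := 
    (mul_pos_iff_of_pos_right (hp t ht)).1 ((mul_pos ct (hp u u1)).trans_le (u3 t ht))
  refine k u u1 (fun i => c u * m i - m u * c i) (fun i => ?_) (fun i hi => ?_) (by ring) ?_
    fun i hi => ?_
  · by_cases hi : i ∈ J \ S
    · linarith [u3 i hi]
    · simpa [c2 i hi] using mul_nonneg u4.le (m1 i)
  · simp [m2 i hi, c2 i (by simp [hi])]
  · simp only [sub_smul, mul_smul, sum_sub_distrib, ← smul_sum, m3, c1, smul_zero, sub_zero]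
  · simpa [c2 i (by simp [hi])] using mul_pos u4 (m4 i hi)

theorem result (X : Type) [AddCommGroup X] (r : ℕ) (f : Fin r → X)
    (hf : AddSubgroup.closure (Set.range f) = ⊤) (n : ℕ) (χ : Fin n → X) (I : Finset (Fin n)) :
    AddSubgroup.closure (B χ I) =
      AddSubgroup.closure (⋃ J ⊆ I, ⋃ _ : #J ≤ 1 + Module.finrank ℤ X + r, B χ J) := by
  classical
  have : Module.Finite ℤ X := Module.Finite.iff_addGroup_fg.2
    ⟨(AddSubgroup.fg_iff _).2 ⟨_, hf, Set.finite_range f⟩⟩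
  refine le_antisymm ((AddSubgroup.closure_le _).2 fun m hm => glob _ m fun p hp => ?_)
    (AddSubgroup.closure_mono fun m hm => ?_)
  swap
  · simp only [Set.mem_iUnion] at hm
    obtain ⟨J, h1, -, h2, h3, h4⟩ := hm
    exact ⟨h2, fun i hi => h3 i fun h => hi (h1 h), h4⟩
  set A := AddSubgroup.closure (⋃ J ⊆ I, ⋃ _ : #J ≤ 1 + Module.finrank ℤ X + r, B χ J)
  obtain ⟨S, s1, s2, k, k1, k2⟩ := core hp f hf (χ '' {i | 0 < m i})
  choose g g1 g2 using fun x : S => s1 x.2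
  let R : Finset (Fin n) := univ.image g
  have r1 : ∀ i ∈ R, 0 < m i := fun i hi => by
    obtain ⟨x, -, rfl⟩ := mem_image.1 hi
    exact g1 x
  have hI : ∀ i, 0 < m i → i ∈ I := fun i hi => by_contra fun h => hi.ne' (hm.2.1 i h)
  have key : ∀ i, (i ∈ R ∨ 0 < m i) → ∀ a : Fin n → ℤ, (∀ j ∉ insert i R, a j = 0) →
      ∑ j, a j • χ j = 0 → a ∈ A := fun i hi a a1 a2 => by
    have h1 : ∀ j ∈ insert i R, 0 < m j := fun j hj =>
      (mem_insert.1 hj).elim (fun e => e ▸ hi.elim (r1 i) id) (r1 j)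
    obtain ⟨J, j1, j2, j3, b, b1, b2⟩ := car χ (fun j hj => hI j (h1 j hj)) hm h1
    have j4 : ∀ x ∈ B χ J, x ∈ A := fun x hx => AddSubgroup.subset_closure
      (Set.mem_iUnion₂.2 ⟨J, j1, Set.mem_iUnion.2 ⟨by
        have := card_insert_le i R
        have : #R ≤ #S := card_image_le.trans (by simp)
        omega, hx⟩⟩)
    rw [← add_sub_cancel_right a ((∑ j, |a j|) • b)]
    refine A.sub_mem (j4 _ ⟨fun j => ?_, fun j hj => ?_, ?_⟩) (A.zsmul_mem (j4 b b1) _)
    · have h2 := single_le_sum (f := fun j => |a j|) (fun _ _ => abs_nonneg _) (mem_univ j)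
      by_cases hj : j ∈ insert i R
      · have := b2 j hj
        have := neg_abs_le (a j)
        have := abs_nonneg (a j)
        simp only [Pi.add_apply, Pi.smul_apply, smul_eq_mul]
        nlinarith
      · simpa [a1 j hj] using mul_nonneg ((abs_nonneg _).trans h2) (b1.1 j)
    · simp [a1 j fun h => hj (j2 h), b1.2.1 j hj]
    · simp only [Pi.add_apply, Pi.smul_apply, add_smul, smul_assoc, sum_add_distrib, ← smul_sum, a2,
        b1.2.2, smul_zero, add_zero]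
  have hc : ∀ i, ∃ c : Fin n → ℤ, (∀ j ∉ R, c j = 0) ∧ (0 < m i → ∑ j, c j • χ j = k • χ i) := by
    intro i
    by_cases hi : 0 < m i
    · have : Submodule.span ℤ (S : Set X) ≤ Submodule.span ℤ (χ '' R) :=
        Submodule.span_mono fun x hx => ⟨g ⟨x, hx⟩, by simp [R], g2 _⟩
      obtain ⟨c, hc⟩ := (Submodule.mem_span_image_finset_iff_exists_fun' ℤ).1
        (this (k2 _ ⟨i, hi, rfl⟩))
      exact ⟨fun j => if j ∈ R then c j else 0, fun j hj => if_neg hj, fun _ => by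
        simpa only [ite_smul, zero_smul, sum_ite_mem, univ_inter] using hc⟩
    · exact ⟨0, fun _ _ => rfl, fun h => absurd h hi⟩
  choose c c1 c2 using hc
  have h0 : ∀ i, m i • (Pi.single i k - c i) ∈ A := fun i => by
    rcases (hm.1 i).eq_or_lt with h | h
    · simp [← h]
    refine A.zsmul_mem (key i (.inr h) _ (fun j hj => ?_) ?_) _
    · simp [c1 i j (by simp_all), Pi.single_eq_of_ne (show j ≠ i by simp_all)]
    · simp [sub_smul, c2 i h, Pi.single_apply]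
  refine ⟨k, k1, ?_⟩
  have e : k • m = ∑ i, m i • (Pi.single i k - c i) + ∑ i, m i • c i := by
    ext j
    simp [← sum_add_distrib, Pi.single_apply, mul_sub, mul_comm]
  rw [e]
  refine A.add_mem (A.sum_mem fun i _ => h0 i) ?_
  have h1 : ∑ j, (∑ i, m i • c i) j • χ j = 0 := by
    simp only [Finset.sum_apply, Pi.smul_apply, sum_smul, smul_assoc]
    rw [sum_comm, ← smul_zero k, ← hm.2.2, smul_sum]
    refine sum_congr rfl fun i _ => ?_
    rcases (hm.1 i).eq_or_lt with h | h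
    · simp [← h]
    · rw [← smul_sum, c2 i h, smul_comm]
  have h2 : ∀ j ∉ R, (∑ i, m i • c i) j = 0 := fun j hj => by simp [c1 _ j hj]
  rcases R.eq_empty_or_nonempty with h | ⟨i, hi⟩
  · rw [show ∑ i, m i • c i = 0 from funext fun j => h2 j (by simp [h])]
    exact A.zero_mem
  · exact key i (.inl hi) _ (fun j hj => h2 j fun h => hj (mem_insert_of_mem h)) h1

end Pool.Agent.Results.MP_7bc96b_al.Pos
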